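import Pool.Agent.Helper72.FX.StK

set_option autoImplicit false

namespace Pool.Agent.Helper15.FX

open Pool.Agent.Helper72.FX
open Polynomial

section

variable {A : Type} [CommRing A] {M : Type} [AddCommGroup M] [Module A M]

private theorem hCX : (C (1 : A) * X - C 0 : A[X]) = X := by simp

theorem X_smul_zero (g : PolynomialModule A M) : ((X : A[X]) • g).coeff 0 = 0 := by
  have h := pm_smul_coeff_zero (1 : A) 0 g
  rw [hCX] at h
  simpa using h

theorem X_smul_succ (g : PolynomialModule A M) (n : ℕ) :
    ((X : A[X]) • g).coeff (n + 1) = g.coeff n := by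
  have h := pm_smul_coeff_succ (1 : A) 0 g n
  rw [hCX] at h
  simpa using h

/-- the constant coefficient -/
noncomputable def c0 (A M : Type) [CommRing A] [AddCommGroup M] [Module A M] :
    PolynomialModule A M →ₗ[A] M where
  toFun g := g.coeff 0
  map_add' g h := by simp
  map_smul' a g := rfl

theorem mem_range_X (g : PolynomialModule A M) :
    g - PolynomialModule.single A 0 (g.coeff 0) ∈
      LinearMap.range (LinearMap.lsmul A[X] (PolynomialModule A M) X) := by
  induction g using PolynomialModule.induction_linear with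
  | zero => simp
  | add g h hg hh =>
    have h1 : g + h - PolynomialModule.single A 0 ((g + h).coeff 0) =
        (g - PolynomialModule.single A 0 (g.coeff 0)) +
          (h - PolynomialModule.single A 0 (h.coeff 0)) := by
      rw [PolynomialModule.coeff_add, Finsupp.add_apply, PolynomialModule.single_add]
      abel
    rw [h1]
    exact Submodule.add_mem _ hg hh
  | single k m =>
    rcases k with _ | k
    · simp
    · refine ⟨PolynomialModule.single A k m, ?_⟩
      rw [LinearMap.lsmul_apply, ← monomial_one_one_eq_X, PolynomialModule.monomial_smul_single]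
      simp [add_comm]

theorem ker_c0 : LinearMap.ker (c0 A M) =
    (LinearMap.range (LinearMap.lsmul A[X] (PolynomialModule A M) X)).restrictScalars A := by
  ext g
  rw [LinearMap.mem_ker, Submodule.restrictScalars_mem]
  constructor
  · intro h
    have h1 := mem_range_X g
    have h2 : g.coeff 0 = 0 := h
    rw [h2] at h1
    simpa using h1
  · rintro ⟨g', rfl⟩
    exact X_smul_zero g'

/-- the cokernel of the multiplication by `X` -/
noncomputable def ckEquiv (A M : Type) [CommRing A] [AddCommGroup M] [Module A M] :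
    (Ck (X : A[X]) (PolynomialModule A M)) ≃ₗ[A] M :=
  (Submodule.Quotient.restrictScalarsEquiv A
      (LinearMap.range (LinearMap.lsmul A[X] (PolynomialModule A M) X))).symm ≪≫ₗ
    Submodule.quotEquivOfEq _ _ (ker_c0 (A := A) (M := M)).symm ≪≫ₗ
    (c0 A M).quotKerEquivOfSurjective (fun m => ⟨PolynomialModule.single A 0 m, by simp [c0]⟩)

end

theorem hEXT : StEXT := by
  intro hDQ hSNK hRES A _ _ I Λ _ χ
  obtain ⟨ψ0, h0⟩ := hRES A[X] A C (I.map C ⊔ Ideal.span {X}) I le_sup_left (fun a =>
    ⟨a.coeff 0, Ideal.mem_sup_right (Ideal.mem_span_singleton.2 X_dvd_sub_C)⟩) Λ χ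
  obtain ⟨ψ, h1⟩ := hDQ hSNK A[X] (I.map C) X Λ ψ0
  refine ⟨ψ, fun M _ _ hf hM => ?_⟩
  rw [h1]
  have hK : Subsingleton (Kn (X : A[X]) (PolynomialModule A M)) := by
    refine ⟨fun a b => ?_⟩
    have key : ∀ g : PolynomialModule A M, (X : A[X]) • g = 0 → g = 0 := by
      intro g hg
      ext n
      rw [← X_smul_succ g n, hg]
      rfl
    have ha : (a : PolynomialModule A M) = 0 := key _ (LinearMap.mem_ker.1 a.2)
    have hb : (b : PolynomialModule A M) = 0 := key _ (LinearMap.mem_ker.1 b.2)
    exact Subtype.ext (ha.trans hb.symm)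
  rw [ψ0.of_subsingleton (gd_kil _) (Kn (X : A[X]) (PolynomialModule A M)), sub_zero,
    h0 (Ck (X : A[X]) (PolynomialModule A M)) (fun a m => algebraMap_smul A[X] a m)]
  exact χ.equiv (gd_kil I) (ckEquiv A M) hf hM

end Pool.Agent.Helper15.FX
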