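import Pool.Agent.Helper71.FX.St

/-!
# Project FX (MP_d629b1_an), module PV (Parseval)
-/

open MeasureTheory Filter Topology
open scoped FourierTransform RealInnerProductSpace Matrix ComplexConjugate ENNReal

noncomputable section

namespace Pool.Agent.Helper71.FX

open Wav

/-- Module PV. -/
theorem pPV (hBS : StBS) (hLX : StLX) (hLF : StLF) (hUN : StUN) : StPV := by
  intro n L N A ψ hg p w w'
  obtain ⟨b, hb, hbF⟩ := hBS n L N A ψ hg
  have hA : A.det ≠ 0 := expansive_det hg.exp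
  have hX := hLX n L N A ψ hg p w (ctr A p)
  have hGf := (hLF n L N A ψ hg).1 p w'
  have hint : Integrable (aff A ψ p) := by
    rw [← memLp_one_iff_integrable]
    exact affine_memLp hA (memLp_one_iff_integrable.2 ((hg.loc p.1).integrable hg.big)) _ _
  have hf : MemLp (aff A ψ p) 2 (volume : Measure (E n)) := affine_memLp hA (hg.loc p.1).memLp _ _
  have hFa : 𝓕 (aff A ψ p) = fa A ψ p := fourier_affine hA _ _ _
  have hG : MemLp (fun ξ => ((⟪w', ξ⟫ : ℝ) : ℂ) * 𝓕 (aff A ψ p) ξ) 2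
      (volume : Measure (E n)) := by
    rw [hFa]
    exact hGf
  have hun := hUN n (aff A ψ p) w w' (ctr A p) hint hf hX hG
  have hnorm : ‖hf.toLp (aff A ψ p)‖ = 1 := by
    have e : hf.toLp (aff A ψ p) = b p := by
      apply Lp.ext
      exact hf.coeFn_toLp.trans (hb p).symm
    rw [e]
    exact b.orthonormal.1 p
  rw [hnorm, one_pow, mul_one] at hun
  refine ⟨inner ℂ (𝓕 (hX.toLp _) : Lp ℂ 2 (volume : Measure (E n))) (hG.toLp _), ?_, hun⟩
  set Φ := Lp.fourierTransformₗᵢ (E n) ℂ with hΦ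
  have h1 := b.hasSum_inner_mul_inner (hX.toLp _) (Φ.symm (hG.toLp _))
  have h2 : inner ℂ (hX.toLp _) (Φ.symm (hG.toLp _)) =
      inner ℂ (𝓕 (hX.toLp _) : Lp ℂ 2 (volume : Measure (E n))) (hG.toLp _) := by
    rw [← Φ.inner_map_map, Φ.apply_symm_apply]
    rfl
  rw [h2] at h1
  have hax : ∀ q, ax A ψ p q w = inner ℂ (hX.toLp _) (b q) := by
    intro q
    rw [ax, L2.inner_def]
    apply integral_congr_ae
    filter_upwards [hX.coeFn_toLp, hb q] with x e1 e2
    rw [e1, e2, RCLike.inner_apply, mul_comm]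
  have hgy : ∀ q, gy A ψ p q w' = inner ℂ (b q) (Φ.symm (hG.toLp _)) := by
    intro q
    have e0 : inner ℂ (b q) (Φ.symm (hG.toLp _)) =
        inner ℂ (𝓕 (b q) : Lp ℂ 2 (volume : Measure (E n))) (hG.toLp _) := by
      rw [← Φ.inner_map_map, Φ.apply_symm_apply]
      rfl
    rw [gy, e0, L2.inner_def]
    apply integral_congr_ae
    filter_upwards [hG.coeFn_toLp, hbF q] with x e1 e2
    rw [e1, e2, hFa, RCLike.inner_apply, mul_comm]
  have h3 : (fun q => ax A ψ p q w * gy A ψ p q w') =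
      fun q => inner ℂ (hX.toLp _) (b q) * inner ℂ (b q) (Φ.symm (hG.toLp _)) := by
    funext q
    rw [hax, hgy]
  rw [h3]
  exact h1

end Pool.Agent.Helper71.FX
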