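import Pool.Agent.Helper71.FX.St

/-!
# Project FX (MP_d629b1_an), module UN (uncertainty identity)
-/

open MeasureTheory Filter Topology
open scoped FourierTransform RealInnerProductSpace Matrix ComplexConjugate ENNReal

noncomputable section

namespace Pool.Agent.Helper71.FX.H15

open Wav

variable {n : ℕ}

local instance : Fact ((2 : ℝ≥0∞) ≠ ∞) := ⟨by norm_num⟩

/-- Translation by `v`. -/
def tr (v : E n) : C(E n, E n) := ⟨fun x => x + v, by fun_prop⟩

theorem tr_mp (v : E n) : MeasurePreserving (tr v) (volume : Measure (E n)) volume :=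
  measurePreserving_add_right _ v

/-- Translation on `L²`. -/
def T (v : E n) : Lp ℂ 2 (volume : Measure (E n)) →ₗᵢ[ℂ] Lp ℂ 2 (volume : Measure (E n)) :=
  Lp.compMeasurePreservingₗᵢ ℂ (tr v) (tr_mp v)

theorem T_coe (v : E n) (g : Lp ℂ 2 (volume : Measure (E n))) :
    (T v g : E n → ℂ) =ᵐ[volume] fun x => g (x + v) :=
  Lp.coeFn_compMeasurePreserving g (tr_mp v)

theorem T_zero (g : Lp ℂ 2 (volume : Measure (E n))) : T (0 : E n) g = g := by
  apply Lp.ext
  filter_upwards [T_coe (0 : E n) g] with x hx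
  rw [hx, add_zero]

theorem T_cont (w : E n) (g : Lp ℂ 2 (volume : Measure (E n))) :
    Continuous (fun s : ℝ => T (s • w) g) := by
  refine Continuous.compMeasurePreservingLp (f := fun _ : ℝ => g) (g := fun s : ℝ => tr (s • w))
    continuous_const ?_ (fun s => tr_mp (s • w)) (by norm_num)
  refine ContinuousMap.continuous_of_continuous_uncurry _ ?_
  change Continuous (fun p : ℝ × E n => p.2 + p.1 • w)
  fun_prop

theorem shift_ae {f g : E n → ℂ} (v : E n) (h : f =ᵐ[volume] g) :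
    (fun x => f (x + v)) =ᵐ[volume] fun x => g (x + v) :=
  (tr_mp v).quasiMeasurePreserving.ae_eq_comp h

/-- Fourier transform of a translate. -/
theorem four_shift (f : E n → ℂ) (v ξ : E n) :
    𝓕 (fun x => f (x + v)) ξ =
      Complex.exp (2 * Real.pi * ⟪v, ξ⟫ * Complex.I) * 𝓕 f ξ := by
  rw [Real.fourier_eq', Real.fourier_eq', ← integral_const_mul]
  rw [← integral_add_right_eq_self (fun x : E n => Complex.exp (2 * Real.pi * ⟪v, ξ⟫ * Complex.I) *
    (Complex.exp (↑(-2 * Real.pi * ⟪x, ξ⟫) * Complex.I) • f x)) v]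
  congr 1
  funext x
  simp only [smul_eq_mul]
  rw [← mul_assoc, ← Complex.exp_add, inner_add_left]
  congr 2
  push_cast
  ring

/-- The multiplier of the difference quotient. -/
def mul (s : ℝ) (a : ℝ) : ℂ :=
  (Complex.exp (2 * Real.pi * (s * a : ℝ) * Complex.I) - 1) / (2 * Real.pi * s * Complex.I)

theorem mul_bound {s : ℝ} (hs : 0 < s) (a : ℝ) : ‖mul s a‖ ≤ |a| := by
  unfold mul
  rw [norm_div]
  have h1 : ‖Complex.exp (2 * Real.pi * (s * a : ℝ) * Complex.I) - 1‖ ≤ |2 * Real.pi * (s * a)| := by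
    have := Real.norm_exp_I_mul_ofReal_sub_one_le (x := 2 * Real.pi * (s * a))
    rw [Real.norm_eq_abs] at this
    convert this using 3
    push_cast
    ring_nf
  have h2 : ‖(2 * Real.pi * s * Complex.I : ℂ)‖ = 2 * Real.pi * s := by
    simp [abs_of_pos hs, abs_of_pos Real.pi_pos]
  rw [h2, div_le_iff₀ (by positivity)]
  refine h1.trans (le_of_eq ?_)
  rw [abs_mul, abs_mul, abs_mul, abs_of_pos hs, abs_of_pos Real.pi_pos, abs_of_pos (by norm_num : (0:ℝ) < 2)]
  ring

theorem mul_tendsto (a : ℝ) : Tendsto (fun s : ℝ => mul s a) (𝓝[>] 0) (𝓝 (a : ℂ)) := by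
  have hd : HasDerivAt (fun s : ℝ => Complex.exp (2 * Real.pi * (s * a : ℝ) * Complex.I))
      (2 * Real.pi * a * Complex.I) 0 := by
    have h1 : HasDerivAt (fun s : ℝ => (2 * Real.pi * (s * a : ℝ) * Complex.I : ℂ))
        (2 * Real.pi * a * Complex.I) 0 := by
      have h0 : HasDerivAt (fun s : ℝ => ((s * a : ℝ) : ℂ)) (a : ℂ) 0 := by
        have := ((hasDerivAt_id (0 : ℝ)).mul_const a).ofReal_comp
        simpa using this
      simpa using (h0.const_mul (2 * Real.pi : ℂ)).mul_const Complex.I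
    have := h1.cexp
    simpa using this
  have h2 := hd.tendsto_slope_zero_right
  have h3 : Tendsto (fun s : ℝ => (s⁻¹ • (Complex.exp (2 * Real.pi * ((0 + s) * a : ℝ) * Complex.I) -
      Complex.exp (2 * Real.pi * ((0 : ℝ) * a : ℝ) * Complex.I))) / (2 * Real.pi * Complex.I))
      (𝓝[>] 0) (𝓝 ((2 * Real.pi * a * Complex.I) / (2 * Real.pi * Complex.I))) :=
    h2.div_const _
  have hpi : (Real.pi : ℂ) ≠ 0 := by exact_mod_cast Real.pi_ne_zero
  have e1 : ((2 * Real.pi * a * Complex.I) / (2 * Real.pi * Complex.I) : ℂ) = a := by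
    field_simp
  rw [e1] at h3
  refine h3.congr' ?_
  filter_upwards [self_mem_nhdsWithin] with s hs
  have hs' : (s : ℂ) ≠ 0 := by
    have : (0 : ℝ) < s := hs
    exact_mod_cast this.ne'
  unfold mul
  simp only [zero_add, zero_mul, Complex.ofReal_zero, mul_zero, Complex.exp_zero, Complex.real_smul,
    Complex.ofReal_inv]
  field_simp

end Pool.Agent.Helper71.FX.H15

namespace Pool.Agent.Helper71.FX

open Wav H15

/-- Module UN. -/
theorem pUN : StUN := by
  intro n f w w' c hf1 hf hX hG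
  set F := hf.toLp f with hFdef
  set X := hX.toLp _ with hXdef
  set G := hG.toLp _ with hGdef
  have hFc : (F : E n → ℂ) =ᵐ[volume] f := hf.coeFn_toLp
  have hXc : (X : E n → ℂ) =ᵐ[volume] fun x => ((⟪w, x - c⟫ : ℝ) : ℂ) * f x := hX.coeFn_toLp
  have hGc : (G : E n → ℂ) =ᵐ[volume] fun ξ => ((⟪w', ξ⟫ : ℝ) : ℂ) * 𝓕 f ξ := hG.coeFn_toLp
  set κ : ℝ := ⟪w, w'⟫ with hκ
  -- the difference quotient
  set δ : ℝ → Lp ℂ 2 (volume : Measure (E n)) :=
    fun s => ((2 * Real.pi * s * Complex.I : ℂ)⁻¹) • (T (s • w') F - F) with hδ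
  -- its Fourier transform
  have h𝓕F : (𝓕 F : Lp ℂ 2 (volume : Measure (E n))) =ᵐ[volume] 𝓕 f := fourier_toLp hf1 hf
  have h𝓕T : ∀ s : ℝ, (𝓕 (T (s • w') F) : Lp ℂ 2 (volume : Measure (E n))) =ᵐ[volume]
      fun ξ => Complex.exp (2 * Real.pi * (s * ⟪w', ξ⟫ : ℝ) * Complex.I) * 𝓕 f ξ := by
    intro s
    have i1 : Integrable (fun x => f (x + s • w')) := hf1.comp_add_right _
    have i2 : MemLp (fun x => f (x + s • w')) 2 (volume : Measure (E n)) :=
      hf.comp_measurePreserving (tr_mp (s • w'))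
    have e : T (s • w') F = i2.toLp _ := by
      apply Lp.ext
      filter_upwards [T_coe (s • w') F, shift_ae (s • w') hFc, i2.coeFn_toLp] with x h1 h2 h3
      rw [h1, h2, h3]
    rw [e]
    filter_upwards [fourier_toLp i1 i2] with ξ hξ
    rw [hξ, four_shift, inner_smul_left]
    simp
  have h𝓕δ : ∀ s : ℝ, (𝓕 (δ s) : Lp ℂ 2 (volume : Measure (E n))) =ᵐ[volume]
      fun ξ => mul s ⟪w', ξ⟫ * 𝓕 f ξ := by
    intro s
    have e : (𝓕 (δ s) : Lp ℂ 2 (volume : Measure (E n))) =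
        ((2 * Real.pi * s * Complex.I : ℂ)⁻¹) • (𝓕 (T (s • w') F) - 𝓕 F) := by
      have := (Lp.fourierTransformₗᵢ (E n) ℂ).map_smul ((2 * Real.pi * s * Complex.I : ℂ)⁻¹)
        (T (s • w') F - F)
      rw [map_sub] at this
      exact this
    rw [e]
    filter_upwards [Lp.coeFn_smul ((2 * Real.pi * s * Complex.I : ℂ)⁻¹)
      ((𝓕 (T (s • w') F) : Lp ℂ 2 (volume : Measure (E n))) - 𝓕 F),
      Lp.coeFn_sub (𝓕 (T (s • w') F) : Lp ℂ 2 (volume : Measure (E n))) (𝓕 F),
      h𝓕T s, h𝓕F] with ξ h1 h2 h3 h4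
    rw [h1, Pi.smul_apply, h2, Pi.sub_apply, h3, h4, smul_eq_mul]
    unfold mul
    ring
  -- norm bound
  have hδn : ∀ s : ℝ, 0 < s → ‖δ s‖ ≤ ‖G‖ := by
    intro s hs
    have e : ‖δ s‖ = ‖(𝓕 (δ s) : Lp ℂ 2 (volume : Measure (E n)))‖ :=
      ((Lp.fourierTransformₗᵢ (E n) ℂ).norm_map (δ s)).symm
    rw [e]
    apply Lp.norm_le_norm_of_ae_le
    filter_upwards [h𝓕δ s, hGc] with ξ h1 h2
    rw [h1, h2, norm_mul, norm_mul, Complex.norm_real, Real.norm_eq_abs]
    exact mul_le_mul_of_nonneg_right (mul_bound hs _) (norm_nonneg _)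
  -- weak convergence
  have hconv : Tendsto (fun s => inner ℂ (𝓕 X : Lp ℂ 2 (volume : Measure (E n))) (𝓕 (δ s)))
      (𝓝[>] 0) (𝓝 (inner ℂ (𝓕 X : Lp ℂ 2 (volume : Measure (E n))) G)) := by
    have e1 : ∀ s : ℝ, inner ℂ (𝓕 X : Lp ℂ 2 (volume : Measure (E n))) (𝓕 (δ s)) =
        ∫ ξ, conj ((𝓕 X : Lp ℂ 2 (volume : Measure (E n))) ξ) * (mul s ⟪w', ξ⟫ * 𝓕 f ξ) := by
      intro s
      rw [L2.inner_def]
      apply integral_congr_ae
      filter_upwards [h𝓕δ s] with ξ h1
      rw [h1, RCLike.inner_apply, mul_comm]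
    have e2 : inner ℂ (𝓕 X : Lp ℂ 2 (volume : Measure (E n))) G =
        ∫ ξ, conj ((𝓕 X : Lp ℂ 2 (volume : Measure (E n))) ξ) * (((⟪w', ξ⟫ : ℝ) : ℂ) * 𝓕 f ξ) := by
      rw [L2.inner_def]
      apply integral_congr_ae
      filter_upwards [hGc] with ξ h1
      rw [h1, RCLike.inner_apply, mul_comm]
    simp_rw [e1, e2]
    refine tendsto_integral_filter_of_dominated_convergence
      (fun ξ => ‖(𝓕 X : Lp ℂ 2 (volume : Measure (E n))) ξ‖ * ‖G ξ‖) ?_ ?_ ?_ ?_
    · refine Eventually.of_forall fun s => ?_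
      refine (Complex.continuous_conj.comp_aestronglyMeasurable
        (Lp.aestronglyMeasurable _)).mul ?_
      exact (Lp.aestronglyMeasurable (𝓕 (δ s) : Lp ℂ 2 (volume : Measure (E n)))).congr (h𝓕δ s)
    · filter_upwards [self_mem_nhdsWithin] with s hs
      filter_upwards [hGc] with ξ h1
      rw [h1, norm_mul, norm_mul, norm_mul, RCLike.norm_conj, Complex.norm_real, Real.norm_eq_abs]
      exact mul_le_mul_of_nonneg_left
        (mul_le_mul_of_nonneg_right (mul_bound hs _) (norm_nonneg _)) (norm_nonneg _)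
    · exact (L2.integrable_inner (𝕜 := ℝ) (E := ℝ)
        ((Lp.memLp (𝓕 X : Lp ℂ 2 (volume : Measure (E n)))).norm.toLp _)
        ((Lp.memLp G).norm.toLp _)).congr (by
          filter_upwards [(Lp.memLp (𝓕 X : Lp ℂ 2 (volume : Measure (E n)))).norm.coeFn_toLp,
            (Lp.memLp G).norm.coeFn_toLp] with ξ h1 h2
          rw [h1, h2, RCLike.inner_apply]
          simp [mul_comm])
    · refine Eventually.of_forall fun ξ => ?_
      exact ((mul_tendsto _).mul_const _).const_mul _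
  -- the algebra
  set W : ℝ → Lp ℂ 2 (volume : Measure (E n)) :=
    fun s => T (s • w') X - ((s * κ : ℝ) : ℂ) • T (s • w') F with hW
  have hWc : ∀ s : ℝ, (W s : E n → ℂ) =ᵐ[volume]
      fun x => ((⟪w, x - c⟫ : ℝ) : ℂ) * f (x + s • w') := by
    intro s
    filter_upwards [Lp.coeFn_sub (T (s • w') X) (((s * κ : ℝ) : ℂ) • T (s • w') F),
      Lp.coeFn_smul ((s * κ : ℝ) : ℂ) (T (s • w') F), T_coe (s • w') X, T_coe (s • w') F,
      shift_ae (s • w') hXc, shift_ae (s • w') hFc] with x h1 h2 h3 h4 h5 h6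
    rw [hW]
    simp only
    rw [h1, Pi.sub_apply, h2, Pi.smul_apply, h3, h4, h5, h6, smul_eq_mul]
    have e : (⟪w, x + s • w' - c⟫ : ℝ) = ⟪w, x - c⟫ + s * κ := by
      rw [hκ, ← inner_smul_right, ← inner_add_right]
      congr 1
      abel
    rw [e]
    push_cast
    ring
  have hsym : ∀ s : ℝ, inner ℂ (W s) F = inner ℂ (T (s • w') F) X := by
    intro s
    rw [L2.inner_def, L2.inner_def]
    apply integral_congr_ae
    filter_upwards [hWc s, hFc, T_coe (s • w') F, shift_ae (s • w') hFc, hXc] with x h1 h2 h3 h4 h5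
    rw [h1, h2, h3, h4, h5, RCLike.inner_apply, RCLike.inner_apply]
    simp only [map_mul, Complex.conj_ofReal]
    ring
  have hXF : (inner ℂ X F).im = 0 := by
    have e : inner ℂ X F = inner ℂ F X := by
      rw [L2.inner_def, L2.inner_def]
      apply integral_congr_ae
      filter_upwards [hFc, hXc] with x h1 h2
      rw [h1, h2, RCLike.inner_apply, RCLike.inner_apply]
      simp only [map_mul, Complex.conj_ofReal]
      ring
    have e2 := inner_conj_symm (𝕜 := ℂ) X F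
    rw [← e] at e2
    exact Complex.conj_eq_iff_im.1 e2
  have hTT : ∀ s : ℝ, inner ℂ (T (s • w') X) (T (s • w') F) = inner ℂ X F :=
    fun s => (T (s • w')).inner_map_map X F
  have hTF : ∀ s : ℝ, inner ℂ (T (s • w') F) (T (s • w') F) = (‖F‖ ^ 2 : ℝ) := by
    intro s
    rw [(T (s • w')).inner_map_map, inner_self_eq_norm_sq_to_K]
    norm_cast
  have hE : ∀ s : ℝ, (inner ℂ (W s - X) (T (s • w') F - F)).re =
      -(2 * (inner ℂ X (T (s • w') F - F)).re) - s * κ * ‖F‖ ^ 2 := by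
    intro s
    have a1 : inner ℂ (W s - X) (T (s • w') F - F) = inner ℂ (W s) (T (s • w') F) - inner ℂ (W s) F
        - inner ℂ X (T (s • w') F) + inner ℂ X F := by
      rw [inner_sub_left, inner_sub_right, inner_sub_right]
      ring
    have a2 : inner ℂ (W s) (T (s • w') F) = inner ℂ X F - ((s * κ * ‖F‖ ^ 2 : ℝ) : ℂ) := by
      rw [hW]
      simp only
      rw [inner_sub_left, inner_smul_left, hTT, hTF, Complex.conj_ofReal]
      push_cast
      ring
    have a3 : (inner ℂ (T (s • w') F) X).re = (inner ℂ X (T (s • w') F)).re := by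
      rw [← inner_conj_symm, Complex.conj_re]
    rw [a1, a2, hsym, inner_sub_right]
    simp only [Complex.sub_re, Complex.add_re, Complex.ofReal_re, a3]
    ring
  have hIm : ∀ s : ℝ, 0 < s → (inner ℂ (𝓕 X : Lp ℂ 2 (volume : Measure (E n))) (𝓕 (δ s))).im =
      κ * ‖F‖ ^ 2 / (4 * Real.pi) + (inner ℂ (W s - X) (δ s)).im * (-1 / 2) := by
    intro s hs
    have hs' : s ≠ 0 := hs.ne'
    have hpi : Real.pi ≠ 0 := Real.pi_ne_zero
    have key : ∀ Z : Lp ℂ 2 (volume : Measure (E n)),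
        (inner ℂ Z (δ s)).im = -(inner ℂ Z (T (s • w') F - F)).re / (2 * Real.pi * s) := by
      intro Z
      have e : ((2 * Real.pi * s * Complex.I : ℂ)⁻¹) =
          ((-(1 / (2 * Real.pi * s)) : ℝ) : ℂ) * Complex.I := by
        have h1 : (s : ℂ) ≠ 0 := by exact_mod_cast hs'
        have h2 : (Real.pi : ℂ) ≠ 0 := by exact_mod_cast hpi
        have h3 := Complex.I_ne_zero
        push_cast
        field_simp
        rw [Complex.I_sq]
        ring
      rw [hδ]
      simp only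
      rw [inner_smul_right, e, mul_assoc, Complex.im_ofReal_mul, Complex.I_mul_im]
      ring
    have e1 : inner ℂ (𝓕 X : Lp ℂ 2 (volume : Measure (E n))) (𝓕 (δ s)) = inner ℂ X (δ s) :=
      (Lp.fourierTransformₗᵢ (E n) ℂ).inner_map_map X (δ s)
    rw [e1, key, key, hE]
    field_simp
    ring
  have hlim : Tendsto (fun s : ℝ => (inner ℂ (W s - X) (δ s)).im) (𝓝[>] 0) (𝓝 0) := by
    have hW0 : Tendsto (fun s : ℝ => ‖W s - X‖ * ‖G‖) (𝓝[>] 0) (𝓝 0) := by
      have c1 : Continuous (fun s : ℝ => ‖W s - X‖ * ‖G‖) := by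
        have := T_cont w' X
        have := T_cont w' F
        rw [hW]
        fun_prop
      have c2 := (c1.tendsto 0).mono_left (nhdsWithin_le_nhds (s := Set.Ioi (0 : ℝ)))
      have c3 : ‖W 0 - X‖ * ‖G‖ = 0 := by
        rw [hW]
        simp [T_zero]
      rw [c3] at c2
      exact c2
    refine squeeze_zero_norm' ?_ hW0
    filter_upwards [self_mem_nhdsWithin] with s hs
    refine (Complex.abs_im_le_norm _).trans ?_
    refine (norm_inner_le_norm _ _).trans ?_
    exact mul_le_mul_of_nonneg_left (hδn s hs) (norm_nonneg _)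
  have hfin : Tendsto (fun s => (inner ℂ (𝓕 X : Lp ℂ 2 (volume : Measure (E n))) (𝓕 (δ s))).im)
      (𝓝[>] 0) (𝓝 (κ * ‖F‖ ^ 2 / (4 * Real.pi))) := by
    have h0 : Tendsto (fun s : ℝ => κ * ‖F‖ ^ 2 / (4 * Real.pi) +
        (inner ℂ (W s - X) (δ s)).im * (-1 / 2)) (𝓝[>] 0)
        (𝓝 (κ * ‖F‖ ^ 2 / (4 * Real.pi) + 0 * (-1 / 2))) := (hlim.mul_const _).const_add _
    rw [zero_mul, add_zero] at h0
    refine h0.congr' ?_
    filter_upwards [self_mem_nhdsWithin] with s hs
    exact (hIm s hs).symm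
  exact tendsto_nhds_unique ((Complex.continuous_im.tendsto _).comp hconv) hfin

end Pool.Agent.Helper71.FX
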